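import Pool.Agent.Y915.Stm

/-!
# The explicit map of the disc with conformal radius close to `16`
-/

set_option autoImplicit false

namespace Pool.Agent.Y79.PC.DOM

open scoped PowerSeries
open Pool.Agent.Y915

/-- units of the class `Gd 1` -/
def GU (f : ℂ⟦X⟧) : Prop := Gd 1 f ∧ ∃ g : ℂ⟦X⟧, Gd 1 g ∧ f * g = 1

section basic

variable (hG : StGd)

include hG

theorem add_ {f g : ℂ⟦X⟧} (hf : Gd 1 f) (hg : Gd 1 g) : Gd 1 (f + g) := (hG 1).1 f g hf hg

theorem mul_ {f g : ℂ⟦X⟧} (hf : Gd 1 f) (hg : Gd 1 g) : Gd 1 (f * g) := (hG 1).2.1 f g hf hg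

theorem C_ (a : ℂ) : Gd 1 (PowerSeries.C a) := (hG 1).2.2.1 a

theorem X_ : Gd 1 (PowerSeries.X : ℂ⟦X⟧) := (hG 1).2.2.2.1

theorem der_ {f : ℂ⟦X⟧} (hf : Gd 1 f) : Gd 1 (PowerSeries.derivative ℂ f) :=
  (hG 1).2.2.2.2 f hf

theorem one_ : Gd 1 (1 : ℂ⟦X⟧) := by
  have := C_ hG 1
  rwa [map_one] at this

theorem neg_ {f : ℂ⟦X⟧} (hf : Gd 1 f) : Gd 1 (-f) := by
  have := mul_ hG (C_ hG (-1)) hf
  rwa [map_neg, map_one, neg_mul, one_mul] at this

theorem sub_ {f g : ℂ⟦X⟧} (hf : Gd 1 f) (hg : Gd 1 g) : Gd 1 (f - g) := by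
  rw [sub_eq_add_neg]
  exact add_ hG hf (neg_ hG hg)

theorem pow_ {f : ℂ⟦X⟧} (hf : Gd 1 f) (n : ℕ) : Gd 1 (f ^ n) := by
  induction n with
  | zero => rw [pow_zero]; exact one_ hG
  | succ n ih => rw [pow_succ]; exact mul_ hG ih hf

theorem GU_mul {f g : ℂ⟦X⟧} (hf : GU f) (hg : GU g) : GU (f * g) := by
  obtain ⟨h1, f', h2, h3⟩ := hf
  obtain ⟨h4, g', h5, h6⟩ := hg
  refine ⟨mul_ hG h1 h4, f' * g', mul_ hG h2 h5, ?_⟩
  calc f * g * (f' * g') = (f * f') * (g * g') := by ring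
    _ = 1 := by rw [h3, h6, one_mul]

theorem GU_one : GU 1 := ⟨one_ hG, 1, one_ hG, one_mul 1⟩

theorem GU_pow {f : ℂ⟦X⟧} (hf : GU f) (n : ℕ) : GU (f ^ n) := by
  induction n with
  | zero => rw [pow_zero]; exact GU_one hG
  | succ n ih => rw [pow_succ]; exact GU_mul hG ih hf

theorem GU_C {a : ℂ} (ha : a ≠ 0) : GU (PowerSeries.C a) := by
  refine ⟨C_ hG a, PowerSeries.C a⁻¹, C_ hG _, ?_⟩
  rw [← map_mul, mul_inv_cancel₀ ha, map_one]

theorem GU_one_add_X : GU (1 + PowerSeries.X) := by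
  refine ⟨add_ hG (one_ hG) (X_ hG), PowerSeries.mk fun n => (-1 : ℂ) ^ n, ?_, ?_⟩
  · intro ρ h0 h1
    refine ⟨1, fun m => ?_⟩
    rw [PowerSeries.coeff_mk, norm_pow, norm_neg, norm_one, one_pow, one_mul]
    exact pow_le_one₀ h0.le h1.le
  · ext n
    rw [add_mul, one_mul, map_add]
    rcases n with _ | n
    · simp
    · rw [PowerSeries.coeff_succ_X_mul, PowerSeries.coeff_mk, PowerSeries.coeff_mk,
        PowerSeries.coeff_one, if_neg (Nat.succ_ne_zero n)]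
      ring

end basic

theorem GU_inv {f : ℂ⟦X⟧} (hf : GU f) : ∃ g, GU g ∧ f * g = 1 := by
  obtain ⟨h1, f', h2, h3⟩ := hf
  exact ⟨f', ⟨h2, f, h1, by rw [mul_comm]; exact h3⟩, h3⟩

theorem GU_ne {f : ℂ⟦X⟧} (hf : GU f) : PowerSeries.constantCoeff f ≠ 0 := by
  obtain ⟨h1, f', h2, h3⟩ := hf
  intro h
  have h4 := congrArg PowerSeries.constantCoeff h3
  rw [map_mul, h, zero_mul, map_one] at h4
  exact zero_ne_one h4

theorem GU_ne_zero {f : ℂ⟦X⟧} (hf : GU f) : f ≠ 0 := by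
  rintro rfl
  exact GU_ne hf (map_zero _)

/-! ### Expansion -/

theorem expand_Gd {f : ℂ⟦X⟧} (hf : Gd 1 f) {n : ℕ} (hn : n ≠ 0) :
    Gd 1 (PowerSeries.expand n hn f) := by
  intro ρ h0 h1
  obtain ⟨B, hB⟩ := hf (ρ ^ n) (by positivity) (pow_lt_one₀ h0.le h1 hn)
  refine ⟨max B 0, fun m => ?_⟩
  rw [PowerSeries.coeff_expand]
  split_ifs with h
  · obtain ⟨q, rfl⟩ := h
    rw [Nat.mul_div_cancel_left _ (Nat.pos_of_ne_zero hn), pow_mul]
    exact (hB q).trans (le_max_left _ _)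
  · rw [norm_zero, zero_mul]
    exact le_max_right _ _

theorem expand_GU {f : ℂ⟦X⟧} (hf : GU f) {n : ℕ} (hn : n ≠ 0) :
    GU (PowerSeries.expand n hn f) := by
  obtain ⟨h1, g, h2, h3⟩ := hf
  refine ⟨expand_Gd h1 hn, PowerSeries.expand n hn g, expand_Gd h2 hn, ?_⟩
  rw [← map_mul, h3, map_one]

theorem derivative_expand (f : ℂ⟦X⟧) {n : ℕ} (hn : n ≠ 0) :
    PowerSeries.derivative ℂ (PowerSeries.expand n hn f) =
      PowerSeries.expand n hn (PowerSeries.derivative ℂ f) *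
        ((n : ℂ⟦X⟧) * PowerSeries.X ^ (n - 1)) := by
  rw [PowerSeries.expand_apply, PowerSeries.derivative_subst (PowerSeries.HasSubst.X_pow hn),
    PowerSeries.expand_apply, PowerSeries.derivative_pow, PowerSeries.derivative_X, mul_one]

/-! ### Roots -/

theorem root (hG : StGd) (h1 : StOde1) (h3 : StOde3) {U : ℂ⟦X⟧} (hU : GU U) {k : ℕ} (hk : k ≠ 0)
    {b : ℂ} (hb : b ^ k = PowerSeries.constantCoeff U) :
    ∃ V, GU V ∧ V ^ k = U ∧ PowerSeries.constantCoeff V = b := by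
  have hb0 : b ≠ 0 := by
    rintro rfl
    rw [zero_pow hk] at hb
    exact GU_ne hU hb.symm
  obtain ⟨hU1, U', hU2, hU3⟩ := hU
  have hkC : (k : ℂ) ≠ 0 := by exact_mod_cast hk
  set L : ℂ⟦X⟧ := PowerSeries.C (1 / (k : ℂ)) * (PowerSeries.derivative ℂ U * U') with hL
  have hLG : Gd 1 L := mul_ hG (C_ hG _) (mul_ hG (der_ hG hU1) hU2)
  obtain ⟨Y, hY1, hY2⟩ := h1 ℂ 1 (Matrix.of fun _ _ => L)
  have hYG := h3 1 1 (Matrix.of fun _ _ => L) Y (fun _ _ => hLG) hY1 0 0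
  set y : ℂ⟦X⟧ := Y 0 0 with hy
  have hy' : PowerSeries.derivative ℂ y = L * y := by
    have := congrFun (congrFun hY1 0) 0
    simpa [dM, Matrix.mul_apply] using this
  have hy0 : PowerSeries.constantCoeff y = 1 := by
    have := congrFun (congrFun hY2 0) 0
    simpa using this
  set V : ℂ⟦X⟧ := PowerSeries.C b * y with hV
  have hV' : PowerSeries.derivative ℂ V = L * V := by
    rw [hV, Derivation.leibniz, PowerSeries.derivative_C, hy', smul_zero, add_zero, smul_eq_mul]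
    ring
  have hVk : PowerSeries.derivative ℂ (V ^ k) = (k : ℂ⟦X⟧) * L * V ^ k := by
    rw [PowerSeries.derivative_pow, hV']
    obtain ⟨j, rfl⟩ := Nat.exists_eq_succ_of_ne_zero hk
    rw [Nat.succ_sub_one, pow_succ]
    ring
  have hkL : (k : ℂ⟦X⟧) * L = PowerSeries.derivative ℂ U * U' := by
    rw [hL, ← mul_assoc]
    have : (k : ℂ⟦X⟧) * PowerSeries.C (1 / (k : ℂ)) = 1 := by
      rw [← map_natCast (PowerSeries.C (R := ℂ)), ← map_mul, mul_one_div_cancel hkC, map_one]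
    rw [this, one_mul]
  have hUU' : PowerSeries.derivative ℂ U * U' + U * PowerSeries.derivative ℂ U' = 0 := by
    have := congrArg (PowerSeries.derivative ℂ) hU3
    rw [Derivation.leibniz, PowerSeries.derivative_one] at this
    rw [smul_eq_mul, smul_eq_mul] at this
    linear_combination this
  have hquot : V ^ k * U' = 1 := by
    apply PowerSeries.derivative.ext
    · rw [Derivation.leibniz, hVk, PowerSeries.derivative_one, smul_eq_mul, smul_eq_mul, hkL]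
      have h5 : U * (V ^ k * PowerSeries.derivative ℂ U' +
          U' * (PowerSeries.derivative ℂ U * U' * V ^ k)) = 0 := by
        linear_combination (V ^ k) * hUU' + (V ^ k * U' * PowerSeries.derivative ℂ U) * hU3
      have hU0 : U ≠ 0 := by
        rintro rfl
        rw [zero_mul] at hU3
        exact zero_ne_one hU3
      exact (mul_eq_zero.1 h5).resolve_left hU0
    · rw [map_mul, map_pow, hV, map_mul, hy0, PowerSeries.constantCoeff_C, mul_one, hb, ← map_mul,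
        hU3]
  have hVU : V ^ k = U := by
    calc V ^ k = V ^ k * (U * U') := by rw [hU3, mul_one]
      _ = (V ^ k * U') * U := by ring
      _ = U := by rw [hquot, one_mul]
  have hVG : Gd 1 V := mul_ hG (C_ hG _) hYG
  refine ⟨V, ⟨hVG, V ^ (k - 1) * U', mul_ hG (pow_ hG hVG _) hU2, ?_⟩, hVU, ?_⟩
  · obtain ⟨j, rfl⟩ := Nat.exists_eq_succ_of_ne_zero hk
    rw [Nat.succ_sub_one, ← mul_assoc, ← pow_succ']
    exact hquot
  · rw [hV, map_mul, hy0, PowerSeries.constantCoeff_C, mul_one]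

/-! ### The recursion -/

/-- the class of pairs `(r, U)`, `r ^ 4 = 1 + X U` -/
def Q (u : ℝ) (r U : ℂ⟦X⟧) : Prop := GU r ∧ GU U ∧ PowerSeries.constantCoeff r = 1 ∧ 0 < u ∧
  PowerSeries.constantCoeff U = (u : ℂ) ∧ r ^ 4 = 1 + PowerSeries.X * U

theorem Q_start (hG : StGd) (h1 : StOde1) (h3 : StOde3) : ∃ r U, Q 1 r U := by
  obtain ⟨r, hr1, hr2, hr3⟩ := root hG h1 h3 (GU_one_add_X hG) (k := 4) (by norm_num) (b := 1)
    (by simp)
  exact ⟨r, 1, hr1, GU_one hG, hr3, one_pos, by simp, by rw [hr2, mul_one]⟩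

theorem Q_step (hG : StGd) (h1 : StOde1) (h3 : StOde3) {u : ℝ} (h : ∃ r U, Q u r U) :
    ∃ r U, Q (4 * Real.sqrt u) r U := by
  obtain ⟨ρ, U, hρ, hU, hρ0, hu, hU0, heq⟩ := h
  have h2 : (2 : ℕ) ≠ 0 := two_ne_zero
  set ρ2 := PowerSeries.expand 2 h2 ρ with hρ2
  set U2 := PowerSeries.expand 2 h2 U with hU2
  have hρ2U := expand_GU hρ h2
  have hU2U := expand_GU hU h2
  rw [← hρ2] at hρ2U
  rw [← hU2] at hU2U
  have heq2 : ρ2 ^ 4 = 1 + PowerSeries.X ^ 2 * U2 := by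
    have := congrArg (PowerSeries.expand 2 h2) heq
    rwa [map_pow, map_add, map_one, map_mul, PowerSeries.expand_X] at this
  obtain ⟨V, hV, hV2, hV0⟩ := root hG h1 h3 hU2U (k := 2) h2 (b := (Real.sqrt u : ℂ)) (by
    rw [hU2, PowerSeries.constantCoeff_expand, hU0, ← Complex.ofReal_pow, Real.sq_sqrt hu.le])
  have hρ20 : PowerSeries.constantCoeff ρ2 = 1 := by
    rw [hρ2, PowerSeries.constantCoeff_expand, hρ0]
  have hsq : 0 < Real.sqrt u := Real.sqrt_pos.2 hu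
  set r := ρ2 ^ 2 + PowerSeries.X * V with hr
  set r' := ρ2 ^ 2 - PowerSeries.X * V with hr'
  have hrr : r * r' = 1 := by
    rw [hr, hr']
    linear_combination heq2 - PowerSeries.X ^ 2 * hV2
  have hrG : GU r := by
    refine ⟨add_ hG (pow_ hG hρ2U.1 2) (mul_ hG (X_ hG) hV.1), r',
      sub_ hG (pow_ hG hρ2U.1 2) (mul_ hG (X_ hG) hV.1), hrr⟩
  have hr0 : PowerSeries.constantCoeff r = 1 := by
    rw [hr, map_add, map_pow, map_mul, hρ20]
    simp
  refine ⟨r, PowerSeries.C 4 * (r ^ 2 * ρ2 ^ 2 * V), hrG,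
    GU_mul hG (GU_C hG (by norm_num)) (GU_mul hG (GU_mul hG (GU_pow hG hrG 2)
      (GU_pow hG hρ2U 2)) hV), hr0, by positivity, ?_, ?_⟩
  · rw [map_mul, map_mul, map_mul, map_pow, map_pow, hr0, hρ20, hV0, PowerSeries.constantCoeff_C]
    push_cast
    ring
  · have hC4 : (PowerSeries.C 4 : ℂ⟦X⟧) = 4 := by
      rw [map_ofNat]
    rw [hC4]
    have e1 : r + r' = 2 * ρ2 ^ 2 := by rw [hr, hr']; ring
    have e2 : r - r' = 2 * (PowerSeries.X * V) := by rw [hr, hr']; ring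
    have e3 : r ^ 2 + 1 = r * (r + r') := by linear_combination -hrr
    have e4 : r ^ 2 - 1 = r * (r - r') := by linear_combination hrr
    have e5 : r ^ 4 - 1 = (r ^ 2 + 1) * (r ^ 2 - 1) := by ring
    rw [e3, e4, e1, e2] at e5
    linear_combination e5

theorem Q_all (hG : StGd) (h1 : StOde1) (h3 : StOde3) (j : ℕ) :
    ∃ r U, Q ((16 : ℝ) ^ (1 - (1 / 2 : ℝ) ^ j)) r U := by
  induction j with
  | zero =>
    rw [pow_zero, sub_self, Real.rpow_zero]
    exact Q_start hG h1 h3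
  | succ j ih =>
    have h := Q_step hG h1 h3 ih
    have e : 4 * Real.sqrt ((16 : ℝ) ^ (1 - (1 / 2 : ℝ) ^ j)) =
        (16 : ℝ) ^ (1 - (1 / 2 : ℝ) ^ (j + 1)) := by
      rw [Real.sqrt_eq_rpow, ← Real.rpow_mul (by norm_num)]
      have h4 : (4 : ℝ) = (16 : ℝ) ^ (1 / 2 : ℝ) := by
        rw [← Real.sqrt_eq_rpow, show (16 : ℝ) = 4 ^ 2 by norm_num, Real.sqrt_sq (by norm_num)]
      nth_rewrite 1 [h4]
      rw [← Real.rpow_add (by norm_num)]
      congr 1
      rw [pow_succ]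
      ring
    rwa [e] at h

theorem Q_large (hG : StGd) (h1 : StOde1) (h3 : StOde3) {K : ℝ} (hK : K < 16) :
    ∃ u r U, K ≤ u ∧ Q u r U := by
  have ht : Filter.Tendsto (fun j : ℕ => (16 : ℝ) ^ (1 - (1 / 2 : ℝ) ^ j)) Filter.atTop
      (nhds ((16 : ℝ) ^ (1 - (0 : ℝ)))) := by
    have hc : Continuous fun x : ℝ => (16 : ℝ) ^ x :=
      Real.continuous_const_rpow (by norm_num)
    exact (hc.tendsto _).comp (tendsto_const_nhds.sub
      (tendsto_pow_atTop_nhds_zero_of_lt_one (by norm_num) (by norm_num)))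
  rw [sub_zero, Real.rpow_one] at ht
  obtain ⟨j, hj⟩ := (ht.eventually (lt_mem_nhds hK)).exists
  obtain ⟨r, U, h⟩ := Q_all hG h1 h3 j
  exact ⟨_, r, U, hj.le, h⟩

theorem dom (hG : StGd) (_h2 : StOde2) (h1 : StOde1) (h3 : StOde3) : StDom := by
  intro n c K hn hc hK
  have hn0 : n ≠ 0 := by omega
  obtain ⟨u, r, U, hKu, hr, hU, hr0, hu, hU0, heq⟩ := Q_large hG h1 h3 hK
  have hcC : (c : ℂ) ≠ 0 := by exact_mod_cast hc
  have huC : (u : ℂ) ≠ 0 := by exact_mod_cast hu.ne'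
  set rn := PowerSeries.expand n hn0 r with hrn
  set Un := PowerSeries.expand n hn0 U with hUn
  set dr := PowerSeries.expand n hn0 (PowerSeries.derivative ℂ r) with hdr
  have hrnU : GU rn := expand_GU hr hn0
  have hUnU : GU Un := expand_GU hU hn0
  have hrn0 : PowerSeries.constantCoeff rn = 1 := by
    rw [hrn, PowerSeries.constantCoeff_expand, hr0]
  have hUn0 : PowerSeries.constantCoeff Un = (u : ℂ) := by
    rw [hUn, PowerSeries.constantCoeff_expand, hU0]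
  have heqn : rn ^ 4 = 1 + PowerSeries.X ^ n * Un := by
    have := congrArg (PowerSeries.expand n hn0) heq
    rwa [map_pow, map_add, map_one, map_mul, PowerSeries.expand_X] at this
  obtain ⟨α, hα⟩ := IsAlgClosed.exists_pow_nat_eq ((u : ℂ) / c) (Nat.pos_of_ne_zero hn0)
  have hα0 : α ≠ 0 := by
    rintro rfl
    rw [zero_pow hn0] at hα
    exact div_ne_zero huC hcC hα.symm
  obtain ⟨H, hH, hHn, hH0⟩ := root hG h1 h3
    (GU_mul hG (GU_C hG (inv_ne_zero huC)) (GU_mul hG hUnU (GU_pow hG hrnU 4))) hn0 (b := 1) (by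
      rw [map_mul, map_mul, map_pow, hrn0, hUn0, PowerSeries.constantCoeff_C, one_pow, one_pow,
        mul_one, inv_mul_cancel₀ huC])
  obtain ⟨H', hH', hHH'⟩ := GU_inv hH
  set S : ℂ⟦X⟧ := 2 * (PowerSeries.X ^ n * Un) + 1 with hS
  set f : ℂ⟦X⟧ := PowerSeries.C α * (PowerSeries.X * H) with hf
  set g : ℂ⟦X⟧ := PowerSeries.C (4 / (c * α ^ (n - 1))) * (rn ^ 3 * dr * H' ^ (n - 1)) with hg
  have hfn : (c : ℂ⟦X⟧) * f ^ n = PowerSeries.X ^ n * Un * rn ^ 4 := by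
    rw [hf, mul_pow, mul_pow, hHn, ← map_pow, hα]
    have e1 : (c : ℂ⟦X⟧) * (PowerSeries.C ((u : ℂ) / c) * (PowerSeries.X ^ n *
        (PowerSeries.C (u : ℂ)⁻¹ * (Un * rn ^ 4)))) =
        ((c : ℂ⟦X⟧) * PowerSeries.C ((u : ℂ) / c) * PowerSeries.C (u : ℂ)⁻¹) *
          (PowerSeries.X ^ n * Un * rn ^ 4) := by ring
    have e2 : (c : ℂ⟦X⟧) * PowerSeries.C ((u : ℂ) / c) * PowerSeries.C (u : ℂ)⁻¹ = 1 := by
      rw [← map_intCast (PowerSeries.C (R := ℂ)), ← map_mul, ← map_mul]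
      have : (c : ℂ) * ((u : ℂ) / c) * (u : ℂ)⁻¹ = 1 := by field_simp
      rw [this, map_one]
    rw [e1, e2, one_mul]
  have hS2 : S ^ 2 = 1 + 4 * (c : ℂ⟦X⟧) * f ^ n := by
    rw [mul_assoc, hfn, heqn, hS]
    ring
  have hfG : Gd 1 f := mul_ hG (C_ hG _) (mul_ hG (X_ hG) hH.1)
  have hSG : Gd 1 S := by
    have h2 : Gd 1 (PowerSeries.C (2 : ℂ) * (PowerSeries.X ^ n * Un) + 1) :=
      add_ hG (mul_ hG (C_ hG 2) (mul_ hG (pow_ hG (X_ hG) n) hUnU.1)) (one_ hG)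
    rwa [map_ofNat] at h2
  have hgG : Gd 1 g := mul_ hG (C_ hG _) (mul_ hG (mul_ hG (pow_ hG hrnU.1 3)
    (expand_Gd (der_ hG hr.1) hn0)) (pow_ hG hH'.1 _))
  -- the derivative
  have hder : PowerSeries.derivative ℂ f = S * g := by
    have d1 : PowerSeries.derivative ℂ (PowerSeries.X ^ n * Un) =
        4 * rn ^ 3 * (dr * ((n : ℂ⟦X⟧) * PowerSeries.X ^ (n - 1))) := by
      have h5 : PowerSeries.X ^ n * Un = rn ^ 4 - 1 := by rw [heqn]; ring
      rw [h5, map_sub, PowerSeries.derivative_one, sub_zero, PowerSeries.derivative_pow, hrn,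
        derivative_expand]
      push_cast
      ring
    have d2 : PowerSeries.derivative ℂ ((c : ℂ⟦X⟧) * f ^ n) =
        (c : ℂ⟦X⟧) * ((n : ℂ⟦X⟧) * f ^ (n - 1) * PowerSeries.derivative ℂ f) := by
      rw [← map_intCast (PowerSeries.C (R := ℂ)), Derivation.leibniz, PowerSeries.derivative_C,
        smul_zero, add_zero, smul_eq_mul, PowerSeries.derivative_pow]
    have d3 : PowerSeries.derivative ℂ ((c : ℂ⟦X⟧) * f ^ n) =
        S * PowerSeries.derivative ℂ (PowerSeries.X ^ n * Un) := by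
      have h5 : (c : ℂ⟦X⟧) * f ^ n = (PowerSeries.X ^ n * Un) ^ 2 + PowerSeries.X ^ n * Un := by
        rw [hfn, heqn]
        ring
      rw [h5, map_add, PowerSeries.derivative_pow, hS]
      push_cast
      ring
    have d4 : f ^ (n - 1) = PowerSeries.C (α ^ (n - 1)) * (PowerSeries.X ^ (n - 1) *
        H ^ (n - 1)) := by
      rw [hf, mul_pow, mul_pow, map_pow]
    have d5 : ((n : ℂ⟦X⟧) * PowerSeries.X ^ (n - 1)) *
        ((c : ℂ⟦X⟧) * PowerSeries.C (α ^ (n - 1)) * H ^ (n - 1) * PowerSeries.derivative ℂ f) =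
        ((n : ℂ⟦X⟧) * PowerSeries.X ^ (n - 1)) * (S * (4 * rn ^ 3 * dr)) := by
      rw [d3, d1, d4] at d2
      linear_combination -d2
    have hnX : ((n : ℂ⟦X⟧) * PowerSeries.X ^ (n - 1)) ≠ 0 := by
      apply mul_ne_zero
      · rw [← map_natCast (PowerSeries.C (R := ℂ))]
        intro h
        have h6 := congrArg PowerSeries.constantCoeff h
        rw [PowerSeries.constantCoeff_C, map_zero] at h6
        exact hn0 (by exact_mod_cast h6)
      · exact pow_ne_zero _ PowerSeries.X_ne_zero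
    have d6 := mul_left_cancel₀ hnX d5
    have hHp : H ^ (n - 1) * H' ^ (n - 1) = 1 := by rw [← mul_pow, hHH', one_pow]
    have hcα : (PowerSeries.C (4 / (c * α ^ (n - 1))) : ℂ⟦X⟧) *
        ((c : ℂ⟦X⟧) * PowerSeries.C (α ^ (n - 1))) = 4 := by
      rw [← map_intCast (PowerSeries.C (R := ℂ)), ← map_mul, ← map_mul]
      have : 4 / ((c : ℂ) * α ^ (n - 1)) * ((c : ℂ) * α ^ (n - 1)) = 4 := by
        have : (c : ℂ) * α ^ (n - 1) ≠ 0 := mul_ne_zero hcC (pow_ne_zero _ hα0)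
        field_simp
      rw [this, map_ofNat]
    have h4ne : (4 : ℂ⟦X⟧) ≠ 0 := by
      intro h
      have h6 := congrArg PowerSeries.constantCoeff h
      rw [map_ofNat, map_zero] at h6
      exact absurd h6 (by norm_num)
    apply mul_left_cancel₀ h4ne
    calc 4 * PowerSeries.derivative ℂ f
        = 4 * (H ^ (n - 1) * H' ^ (n - 1)) * PowerSeries.derivative ℂ f := by
          rw [hHp, mul_one]
      _ = (PowerSeries.C (4 / (c * α ^ (n - 1))) * ((c : ℂ⟦X⟧) * PowerSeries.C (α ^ (n - 1)))) *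
          (H ^ (n - 1) * H' ^ (n - 1)) * PowerSeries.derivative ℂ f := by rw [hcα]
      _ = PowerSeries.C (4 / (c * α ^ (n - 1))) * H' ^ (n - 1) *
          ((c : ℂ⟦X⟧) * PowerSeries.C (α ^ (n - 1)) * H ^ (n - 1) *
            PowerSeries.derivative ℂ f) := by ring
      _ = PowerSeries.C (4 / (c * α ^ (n - 1))) * H' ^ (n - 1) * (S * (4 * rn ^ 3 * dr)) := by
          rw [d6]
      _ = 4 * (S * g) := by rw [hg]; ring
  refine ⟨f, S, g, hfG, hSG, hgG, ?_, ?_, hS2, hder, ?_⟩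
  · rw [hf, map_mul, map_mul, PowerSeries.constantCoeff_X, zero_mul, mul_zero]
  · rw [hS, map_add, map_mul, map_mul, map_pow, PowerSeries.constantCoeff_X, zero_pow hn0, zero_mul,
      mul_zero, map_one, zero_add]
  · have h5 : PowerSeries.coeff 1 f = α := by
      rw [hf, PowerSeries.coeff_C_mul, PowerSeries.coeff_succ_X_mul,
        PowerSeries.coeff_zero_eq_constantCoeff_apply, hH0, mul_one]
    rw [h5, ← norm_pow, hα]
    have h6 : |(c : ℝ)| * ‖(u : ℂ) / c‖ = u := by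
      rw [norm_div, Complex.norm_real, Real.norm_of_nonneg hu.le, Complex.norm_intCast]
      have : |(c : ℝ)| ≠ 0 := by
        rw [abs_ne_zero]
        exact_mod_cast hc
      field_simp
    rw [h6]
    exact hKu

end Pool.Agent.Y79.PC.DOM
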