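import Pool.Agent.Y915.Stm

/-!
# Divisibility of the iterates of the connection over `ℤ⟦x⟧`
-/

set_option autoImplicit false

namespace Pool.Agent.Y79.PC.NAB

open scoped PowerSeries Nat
open Matrix Pool.Agent.Y915

section general

variable {K : Type} [CommRing K] {N : ℕ}

theorem dM_apply (A : Matrix (Fin N) (Fin N) K⟦X⟧) (i j : Fin N) :
    dM A i j = PowerSeries.derivative K (A i j) := rfl

theorem dM_add (A B : Matrix (Fin N) (Fin N) K⟦X⟧) : dM (A + B) = dM A + dM B := by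
  ext1 i j
  simp [dM_apply]

theorem dM_mul (A B : Matrix (Fin N) (Fin N) K⟦X⟧) : dM (A * B) = dM A * B + A * dM B := by
  ext1 i j
  simp only [dM_apply, Matrix.mul_apply, Matrix.add_apply, map_sum, Derivation.leibniz,
    smul_eq_mul, Finset.sum_add_distrib]
  rw [add_comm]
  congr 1
  exact Finset.sum_congr rfl fun l _ => mul_comm _ _

theorem dM_zsmul (q : ℤ) (A : Matrix (Fin N) (Fin N) K⟦X⟧) : dM (q • A) = q • dM A := by
  ext1 i j
  simp only [dM_apply, Matrix.smul_apply, map_zsmul]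

theorem nab_add (G A B : Matrix (Fin N) (Fin N) K⟦X⟧) : nab G (A + B) = nab G A + nab G B := by
  unfold nab
  rw [dM_add, add_mul]
  abel

theorem nab_zsmul (G : Matrix (Fin N) (Fin N) K⟦X⟧) (q : ℤ) (A : Matrix (Fin N) (Fin N) K⟦X⟧) :
    nab G (q • A) = q • nab G A := by
  unfold nab
  rw [dM_zsmul, smul_mul_assoc, smul_add]

theorem nab_iter_zsmul (G : Matrix (Fin N) (Fin N) K⟦X⟧) (q : ℤ) (n : ℕ)
    (A : Matrix (Fin N) (Fin N) K⟦X⟧) : (nab G)^[n] (q • A) = q • (nab G)^[n] A := by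
  induction n with
  | zero => rfl
  | succ n ih =>
    rw [Function.iterate_succ_apply', ih, nab_zsmul, Function.iterate_succ_apply' (nab G) n A]

theorem dM_iter_apply (n : ℕ) (A : Matrix (Fin N) (Fin N) K⟦X⟧) (i j : Fin N) :
    (dM^[n] A) i j = (PowerSeries.derivative K)^[n] (A i j) := by
  induction n generalizing A with
  | zero => rfl
  | succ n ih => rw [Function.iterate_succ_apply', Function.iterate_succ_apply', dM_apply, ih]

/-- the iterates of the connection and the iterated derivatives of a solution -/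
theorem dM_iter_mul (G Y : Matrix (Fin N) (Fin N) K⟦X⟧) (hY : dM Y = G * Y) (n : ℕ)
    (W : Matrix (Fin N) (Fin N) K⟦X⟧) : dM^[n] (W * Y) = (nab G)^[n] W * Y := by
  induction n with
  | zero => rfl
  | succ n ih =>
    rw [Function.iterate_succ_apply', ih, dM_mul, hY, ← mul_assoc, ← add_mul,
      Function.iterate_succ_apply']
    rfl

variable {K' : Type} [CommRing K']

/-- the entrywise image of a matrix under a homomorphism of coefficient rings -/
noncomputable def mp (η : K →+* K') (A : Matrix (Fin N) (Fin N) K⟦X⟧) :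
    Matrix (Fin N) (Fin N) K'⟦X⟧ := A.map (PowerSeries.map η)

theorem mp_mul (η : K →+* K') (A B : Matrix (Fin N) (Fin N) K⟦X⟧) :
    mp η (A * B) = mp η A * mp η B := Matrix.map_mul

theorem mp_add (η : K →+* K') (A B : Matrix (Fin N) (Fin N) K⟦X⟧) :
    mp η (A + B) = mp η A + mp η B := by
  ext1 i j
  simp [mp]

theorem mp_one (η : K →+* K') : mp η (1 : Matrix (Fin N) (Fin N) K⟦X⟧) = 1 :=
  Matrix.map_one _ (map_zero _) (map_one _)

theorem mp_dM (η : K →+* K') (A : Matrix (Fin N) (Fin N) K⟦X⟧) : mp η (dM A) = dM (mp η A) := by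
  ext i j n
  simp [mp, dM_apply, PowerSeries.coeff_derivative]

theorem mp_nab (η : K →+* K') (G A : Matrix (Fin N) (Fin N) K⟦X⟧) (n : ℕ) :
    mp η ((nab G)^[n] A) = (nab (mp η G))^[n] (mp η A) := by
  induction n with
  | zero => rfl
  | succ n ih =>
    rw [Function.iterate_succ_apply', Function.iterate_succ_apply', ← ih]
    unfold nab
    rw [mp_add, mp_dM, mp_mul]

end general

/-- the iterated derivative is divisible by the factorial -/
theorem deriv_iter_dvd {K : Type} [CommRing K] (P : ℕ) (f : K⟦X⟧) :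
    ∃ g : K⟦X⟧, (PowerSeries.derivative K)^[P] f = ((P ! : ℕ) : ℤ) • g := by
  have h : ∀ n : ℕ, ∃ c : ℕ, (n + 1).ascFactorial P = P ! * c := fun n =>
    Nat.factorial_dvd_ascFactorial (n + 1) P
  choose c hc using h
  refine ⟨PowerSeries.mk fun n => (c n : K) * PowerSeries.coeff (n + P) f, ?_⟩
  ext n
  rw [PowerSeries.coeff_iterate_derivative, hc, map_zsmul, PowerSeries.coeff_mk, zsmul_eq_mul]
  push_cast
  ring

theorem dM_iter_dvd {K : Type} [CommRing K] {N : ℕ} (P : ℕ)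
    (A : Matrix (Fin N) (Fin N) K⟦X⟧) :
    ∃ B : Matrix (Fin N) (Fin N) K⟦X⟧, dM^[P] A = ((P ! : ℕ) : ℤ) • B := by
  have h : ∀ i j, ∃ g : K⟦X⟧, (PowerSeries.derivative K)^[P] (A i j) = ((P ! : ℕ) : ℤ) • g :=
    fun i j => deriv_iter_dvd P (A i j)
  choose g hg using h
  refine ⟨Matrix.of g, ?_⟩
  ext1 i j
  rw [dM_iter_apply, hg]
  rfl

theorem nab1 : StNab1 := by
  intro N G M p k hp hM H
  set q : ℤ := (p : ℤ) ^ vf p (p ^ k) with hq
  obtain ⟨M', hM'⟩ := hM
  have key : ∀ n : ℕ, ∃ Z : Matrix (Fin N) (Fin N) ℤ⟦X⟧,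
      (nab (M • G))^[n] H = dM^[n] H + q • Z := by
    intro n
    induction n with
    | zero => exact ⟨0, by simp⟩
    | succ n ih =>
      obtain ⟨Z, hZ⟩ := ih
      refine ⟨dM Z + M' • ((dM^[n] H + q • Z) * G), ?_⟩
      rw [Function.iterate_succ_apply', hZ, Function.iterate_succ_apply']
      unfold nab
      rw [dM_add, dM_zsmul, mul_smul_comm, hM', smul_add, mul_smul]
      abel
  obtain ⟨Z, hZ⟩ := key (p ^ k)
  obtain ⟨B, hB⟩ := dM_iter_dvd (p ^ k) H
  have hdvd : q ∣ (((p ^ k)! : ℕ) : ℤ) := by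
    rw [hq]
    have h1 : p ^ vf p (p ^ k) ∣ (p ^ k)! := Nat.ordProj_dvd _ _
    exact_mod_cast h1
  obtain ⟨r, hr⟩ := hdvd
  refine ⟨r • B + Z, ?_⟩
  rw [hZ, hB, hr, smul_add, mul_smul]

theorem nab_iter_div {N : ℕ} (G : Matrix (Fin N) (Fin N) ℤ⟦X⟧) (P : ℕ) (q : ℤ)
    (h : ∀ H : Matrix (Fin N) (Fin N) ℤ⟦X⟧, ∃ H' : Matrix (Fin N) (Fin N) ℤ⟦X⟧,
      (nab G)^[P] H = q • H') (a : ℕ) (H : Matrix (Fin N) (Fin N) ℤ⟦X⟧) :
    ∃ H' : Matrix (Fin N) (Fin N) ℤ⟦X⟧, (nab G)^[P * a] H = q ^ a • H' := by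
  induction a with
  | zero => exact ⟨H, by simp⟩
  | succ a ih =>
    obtain ⟨Z, hZ⟩ := ih
    obtain ⟨Z', hZ'⟩ := h Z
    refine ⟨Z', ?_⟩
    rw [Nat.mul_succ, add_comm, Function.iterate_add_apply, hZ, nab_iter_zsmul, hZ', ← mul_smul,
      pow_succ]

theorem nab2 (hnum : StNum3) : StNab2 := by
  intro N G k d E Y hE hE' hdiv hY hY0 m i j
  set η : ℤ →+* ℚ := Int.castRingHom ℚ with hη
  set Gm : Matrix (Fin N) (Fin N) ℤ⟦X⟧ := (nab G)^[m] 1 with hGm
  have hY' : dM Y = mp η G * Y := hY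
  have h1 : dM^[m] Y = mp η Gm * Y := by
    have h2 := dM_iter_mul (mp η G) Y hY' m 1
    rw [one_mul] at h2
    rw [h2, hGm, mp_nab, mp_one]
  have h3 : ((m ! : ℕ) : ℚ) * PowerSeries.coeff m (Y i j) =
      ((PowerSeries.constantCoeff (Gm i j) : ℤ) : ℚ) := by
    have h4 : PowerSeries.constantCoeff ((dM^[m] Y) i j) = (m ! : ℚ) * PowerSeries.coeff m (Y i j) := by
      rw [dM_iter_apply, PowerSeries.constantCoeff_iterate_derivative]
    rw [← h4, h1, Matrix.mul_apply, map_sum, Finset.sum_eq_single j]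
    · rw [map_mul]
      have h5 : PowerSeries.constantCoeff (Y j j) = 1 := by
        have := congrFun (congrFun hY0 j) j
        simpa using this
      rw [h5, mul_one]
      change PowerSeries.constantCoeff (PowerSeries.map η (Gm i j)) = _
      rw [← PowerSeries.coeff_zero_eq_constantCoeff_apply, PowerSeries.coeff_map,
        PowerSeries.coeff_zero_eq_constantCoeff_apply]
      rfl
    · intro l _ hl
      rw [map_mul]
      have h5 : PowerSeries.constantCoeff (Y l j) = 0 := by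
        have := congrFun (congrFun hY0 l) j
        rw [Matrix.one_apply_ne hl] at this
        simpa using this
      rw [h5, mul_zero]
    · intro h
      exact absurd (Finset.mem_univ _) h
  have h6 : ∀ p : ℕ, p.Prime →
      (p : ℤ) ^ ((vf p (p ^ k p) - d p) * (m / p ^ k p)) ∣ PowerSeries.constantCoeff (Gm i j) := by
    intro p hp
    obtain ⟨Z, hZ⟩ := nab_iter_div G (p ^ k p) _ (hdiv p hp) (m / p ^ k p)
      ((nab G)^[m % p ^ k p] 1)
    have h7 : Gm = ((p : ℤ) ^ (vf p (p ^ k p) - d p)) ^ (m / p ^ k p) • Z := by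
      rw [← hZ, ← Function.iterate_add_apply, Nat.div_add_mod, hGm]
    rw [h7, pow_mul]
    refine ⟨PowerSeries.constantCoeff (Z i j), ?_⟩
    rw [Matrix.smul_apply, zsmul_eq_mul, map_mul, map_intCast]
    simp
  obtain ⟨z, hz⟩ := hnum k d E m _ hE hE' h6
  refine ⟨z, ?_⟩
  have hm : ((m ! : ℕ) : ℚ) ≠ 0 := by exact_mod_cast (Nat.factorial_ne_zero m)
  apply mul_left_cancel₀ hm
  have h8 : ((E : ℚ) * (wt k d m : ℚ)) * ((PowerSeries.constantCoeff (Gm i j) : ℤ) : ℚ) =
      ((m ! : ℕ) : ℚ) * (z : ℚ) := by exact_mod_cast hz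
  rw [← h8, ← h3]
  push_cast
  ring

theorem van : StVan := by
  intro N G p _ Y hdet hY H
  set η : ℤ →+* ZMod p := Int.castRingHom (ZMod p) with hη
  have hY' : dM Y = mp η G * Y := hY
  have h1 := dM_iter_mul (mp η G) Y hY' p (mp η H)
  rw [← mp_nab] at h1
  have h2 : dM^[p] (mp η H * Y) = 0 := by
    obtain ⟨B, hB⟩ := dM_iter_dvd p (mp η H * Y)
    rw [hB]
    have h3 : (p : ℤ) ∣ ((p ! : ℕ) : ℤ) := by
      exact_mod_cast Nat.dvd_factorial (Fact.out : p.Prime).pos le_rfl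
    obtain ⟨r, hr⟩ := h3
    rw [hr, mul_comm, mul_smul]
    have h4 : (p : ℤ) • B = 0 := by
      ext i j n
      rw [Matrix.smul_apply, map_zsmul, zsmul_eq_mul]
      simp
    rw [h4, smul_zero]
  rw [h2] at h1
  have h3 : mp η ((nab G)^[p] H) = 0 := by
    have h4 : mp η ((nab G)^[p] H) * Y * Y.adjugate = 0 := by rw [← h1, zero_mul]
    rw [mul_assoc, Matrix.mul_adjugate, mul_smul_comm, mul_one] at h4
    exact (smul_eq_zero.1 h4).resolve_left hdet
  have h4 : ∀ i j n, ∃ r : ℤ, PowerSeries.coeff n (((nab G)^[p] H) i j) = p * r := by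
    intro i j n
    have h5 := congrArg (PowerSeries.coeff n) (congrFun (congrFun h3 i) j)
    simp only [mp, Matrix.map_apply, PowerSeries.coeff_map, Matrix.zero_apply, map_zero] at h5
    rw [hη, Int.coe_castRingHom, ZMod.intCast_zmod_eq_zero_iff_dvd] at h5
    exact h5
  choose r hr using h4
  refine ⟨Matrix.of fun i j => PowerSeries.mk fun n => r i j n, ?_⟩
  ext i j n
  rw [hr, Matrix.smul_apply, map_zsmul, zsmul_eq_mul]
  simp

end Pool.Agent.Y79.PC.NAB
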